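import Pool.Agent.Helper50.LF.Names
import Pool.Agent.Helper82.BA.Coding

/-!
# Project LF (MP_743798), LF-1: calculus of `leStar`; small families are dominated by the scale
-/

set_option autoImplicit false
set_option linter.unusedSectionVars false

namespace Pool.Agent.Helper50.LF

open Pool.Agent.Helper33.HM Pool.Agent.Helper94.BA
open Pool.Agent.Helper32.FR (wt nd PN okV avV lsV valV incV accS accV piV Scale Bdg)

section Gen

variable {B : Type 1} [CompleteBooleanAlgebra B] {c : Ordinal.{0} → ℕ → B}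

/-- The name of the function `m ↦ 2 m + 3`. -/
def linV (m k : ℕ) : B := if 2 * m + 3 ≤ k then ⊤ else ⊥

theorem leStar_trans (f g h : ℕ → ℕ → B) : leStar f g ⊓ leStar g h ≤ leStar f h := by
  unfold leStar
  rw [iSup_inf_eq]
  refine iSup_le fun m => ?_
  rw [inf_iSup_eq]
  refine iSup_le fun m' => ?_
  refine le_iSup_of_le (max m m') ?_
  refine le_iInf fun n => le_iInf fun hn => le_iInf fun k => ?_
  have h1 : (⨅ n : ℕ, ⨅ _ : m ≤ n, ⨅ k : ℕ, g n k ⇨ f n k) ≤ g n k ⇨ f n k :=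
    iInf_le_of_le n (iInf_le_of_le ((le_max_left _ _).trans hn) (iInf_le _ k))
  have h2 : (⨅ n : ℕ, ⨅ _ : m' ≤ n, ⨅ k : ℕ, h n k ⇨ g n k) ≤ h n k ⇨ g n k :=
    iInf_le_of_le n (iInf_le_of_le ((le_max_right _ _).trans hn) (iInf_le _ k))
  refine (inf_le_inf h1 h2).trans ?_
  rw [le_himp_iff, inf_assoc]
  exact (inf_le_inf_left _ himp_inf_le).trans himp_inf_le

theorem h63_top_trans {f g h : ℕ → ℕ → B} (h1 : leStar f g = ⊤) (h2 : leStar g h = ⊤) :
    leStar f h = ⊤ := by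
  have h3 := leStar_trans f g h
  rw [h1, h2, inf_top_eq, top_le_iff] at h3
  exact h3

/-- The values `lsV g (c β)` increase with `β`. -/
theorem h63_ls_mono (hc : Scale c) (g : ℕ → B) {β γ : Ordinal.{0}} (h : β ≤ γ) :
    lsV g (c β) ≤ lsV g (c γ) := by
  rcases h.eq_or_lt with rfl | h
  · exact le_rfl
  · have h1 := leStar_trans (decV g) (decV (c β)) (decV (c γ))
    have h2 : leStar (decV (c β)) (decV (c γ)) = ⊤ := hc.mono β γ h
    rw [h2, inf_top_eq] at h1
    exact h1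

theorem exists_ls (hccc : CCC B) (hc : Scale c) (g : ℕ → B) : ∃ β, lsV g (c β) = ⊤ := by
  obtain ⟨a, -, ha, -, -, hsup⟩ := exists_partition hccc isSub_univ
    (fun b => ∃ β, b ≤ lsV g (c β)) (by
      intro b _ hb
      have h1 : b ≤ ⨆ β, lsV g (c β) := by rw [hc.dom g]; exact le_top
      obtain ⟨β, hβ⟩ := exists_inf_ne_bot hb h1
      exact ⟨_, Set.mem_univ _, hβ, inf_le_left, β, inf_le_right⟩)
    ⟨0, bot_le⟩ (Set.mem_univ ⊤)
  choose β hβ using ha
  refine ⟨⨆ n, β n, top_le_iff.1 ?_⟩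
  rw [← hsup]
  exact iSup_le fun n => (hβ n).trans (h63_ls_mono hc g (Ordinal.le_iSup β n))

theorem exists_dom (hccc : CCC B) (hb : Bdg B) (hc : Scale c) (β : Ordinal.{0}) (ι : Type)
    (φ : ι → ℕ → ℕ → B) (hφ : ∀ i, IsFn Set.univ (φ i)) :
    ∃ γ, β ≤ γ ∧ ∀ i, leStar (φ i) (decV (c γ)) = ⊤ := by
  obtain ⟨G, hG⟩ := hb ι fun i => codV (φ i)
  obtain ⟨δ, hδ⟩ := exists_ls hccc hc G
  refine ⟨max β δ, le_max_left _ _, fun i => ?_⟩
  have h1 : leStar (φ i) (decV G) = ⊤ := by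
    have h2 := hG i
    rw [lsV, decV_codV (hφ i)] at h2
    exact h2
  have h2 : leStar (decV G) (decV (c (max β δ))) = ⊤ :=
    top_le_iff.1 (hδ ▸ h63_ls_mono hc G (le_max_right β δ))
  exact h63_top_trans h1 h2

theorem h63_linV_isFn : IsFn Set.univ (linV : ℕ → ℕ → B) := by
  refine ⟨fun _ _ => Set.mem_univ _, fun n k => ?_, fun n => ?_⟩
  · unfold linV
    split_ifs with h1 h2
    · exact le_rfl
    · exact absurd (h1.trans (Nat.le_succ k)) h2
    · exact bot_le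
    · exact le_rfl
  · refine top_le_iff.1 (le_trans ?_ (le_iSup (fun k => (linV n k : B)) (2 * n + 3)))
    simp [linV]

theorem exists_shift (hccc : CCC B) (hc : Scale c) :
    ∃ β₀, Scale (fun β => c (β₀ + β)) ∧ ∀ β, leStar linV (decV (c (β₀ + β))) = ⊤ := by
  obtain ⟨β₀, h₀⟩ := exists_ls hccc hc (codV linV)
  refine ⟨β₀, ⟨fun β => hc.inc _, fun β γ h => hc.mono _ _ (by simpa using h),
    fun β γ h => hc.strict _ _ (by simpa using h), fun β n => ?_, fun g => ?_⟩, fun β => ?_⟩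
  · obtain ⟨γ, hγ, hn⟩ := hc.root (β₀ + β) n
    have h1 : β₀ ≤ γ := le_trans (by simp) hγ
    refine ⟨γ - β₀, ?_, ?_⟩
    · exact (Ordinal.le_sub_of_le h1).2 hγ
    · rw [Ordinal.add_sub_cancel_of_le h1]
      exact hn
  · refine top_le_iff.1 ?_
    rw [← hc.dom g]
    refine iSup_le fun γ => le_trans (h63_ls_mono hc g (le_add_self : γ ≤ β₀ + γ)) ?_
    exact le_iSup (fun β => lsV g (c (β₀ + β))) γ
  · have h2 : lsV (codV linV) (c β₀) ≤ lsV (codV linV) (c (β₀ + β)) :=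
      h63_ls_mono hc _ (by simp)
    rw [h₀, top_le_iff, lsV, decV_codV h63_linV_isFn] at h2
    exact h2

end Gen

end Pool.Agent.Helper50.LF
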